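import Pool.Agent.W490.Flat.Main

set_option autoImplicit false

/-!
# MP_ad9325_ag: the assertion of Q1 is false

Counterexample. Let `G` be the group of pairs `(t, b)` of complex numbers with product
`(t, b) (t', b') = (t + t', b + e^t b')`, let `H` be trivial, so that `G/H = G`, and let `M` be
a complex torus of dimension two. A holomorphic Cartan geometry on `M` modelled on `G/H` is a
holomorphic coframing of `M`, and `M` has a constant one. All holomorphic coframings of `M` are
constant, hence closed, and a flat one would satisfy the Maurer-Cartan equation, which is impossible
since the Lie algebra of `G` is not abelian. For the same reason `M` has no holomorphic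
`(G, X)`-structure.
-/

theorem Pool.Agent.Results.MP_ad9325_ag.TorusNotFlat.result :
    ¬ Pool.Agent.W490.Flat.Assertion :=
  Pool.Agent.W490.Flat.not_assertion
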